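import Pool.Agent.H23.Pac1

set_option autoImplicit false
set_option maxSynthPendingDepth 3

namespace Pool.Agent.Results.MP_ab635e_lc.Hull

open MeasureTheory Finset Filter Topology Pool.Agent.H23.Pac
open scoped NNReal

variable {X : Type*} [MeasurableSpace X]

/-- total variation metric. -/
noncomputable def rho (P Q : Measure X) : ℝ :=
  ⨆ A : {A : Set X // MeasurableSet A}, |P.real A - Q.real A|

/-- finitely many `rho`-balls centred at probability measures cover the family. -/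
def TB (PP : Set (Measure X)) : Prop :=
  ∀ ε > 0, ∃ C : Set (Measure X), C.Finite ∧ (∀ c ∈ C, IsProbabilityMeasure c) ∧
    ∀ P ∈ PP, ∃ c ∈ C, rho P c < ε

/-- `rho`-closure among probability measures. -/
def clos (PP : Set (Measure X)) : Set (Measure X) :=
  {Q | IsProbabilityMeasure Q ∧ ∀ ε > 0, ∃ P ∈ PP, rho P Q < ε}

/-- convex hull. -/
def conv (PP : Set (Measure X)) : Set (Measure X) :=
  {Q | ∃ (l : ℕ) (c : Fin l → ℝ≥0) (P : Fin l → Measure X),
    (∀ j, P j ∈ PP) ∧ ∑ j, c j = 1 ∧ Q = ∑ j, c j • P j}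

noncomputable def dP (P : Measure X) (f g : X → unitInterval) : ℝ := ∫ x, |(f x : ℝ) - g x| ∂P

def IsPAC (F : Set (X → unitInterval)) (PP : Set (Measure X))
    (A : (m : ℕ) → (Fin m → X × unitInterval) → F) : Prop :=
  ∀ ε > 0, Tendsto (fun m => ⨆ P ∈ PP, ⨆ f ∈ F,
    Measure.pi (fun _ : Fin m => P) {x | ε < dP P f (A m fun i => (x i, f (x i)))}) atTop (𝓝 0)

def Learnable (F : Set (X → unitInterval)) (PP : Set (Measure X)) : Prop := ∃ A, IsPAC F PP A

def Cl (μ ν : Measure X) (η : ℝ) : Prop := ∀ φ, Test φ → |∫ x, φ x ∂μ - ∫ x, φ x ∂ν| ≤ η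

lemma Cl.dom {μ ν : Measure X} {η : ℝ} (h : Cl μ ν η) : Dom μ ν 1 η ∧ Dom ν μ 1 η :=
  ⟨fun φ hφ => by linarith [(abs_le.1 (h φ hφ)).2], fun φ hφ => by linarith [(abs_le.1 (h φ hφ)).1]⟩

lemma cl_of_rho {P Q : Measure X} [IsProbabilityMeasure P] [IsProbabilityMeasure Q] {η : ℝ}
    (h : rho P Q < η) : Cl P Q η := by
  have h0 : ∀ A, MeasurableSet A → |P.real A - Q.real A| ≤ η := by
    intro A hA
    refine le_trans (le_ciSup (f := fun A : {A : Set X // MeasurableSet A} =>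
      |P.real A - Q.real A|) ⟨1, ?_⟩ ⟨A, hA⟩) h.le
    rintro _ ⟨B, rfl⟩
    have h1 : P.real B ≤ 1 := measureReal_le_one
    have h2 : Q.real B ≤ 1 := measureReal_le_one
    have h3 : 0 ≤ P.real B := measureReal_nonneg
    have h4 : 0 ≤ Q.real B := measureReal_nonneg
    show |P.real B - Q.real B| ≤ 1
    rw [abs_le]; constructor <;> linarith
  intro φ hφ
  have h1 := dom_of_sets P Q η (fun A hA => by linarith [(abs_le.1 (h0 A hA)).2]) φ hφ
  have h2 := dom_of_sets Q P η (fun A hA => by linarith [(abs_le.1 (h0 A hA)).1]) φ hφ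
  rw [abs_le]; constructor <;> linarith

lemma Cl.trans {μ ν κ : Measure X} {a b : ℝ} (h : Cl μ ν a) (h' : Cl ν κ b) : Cl μ κ (a + b) :=
  fun φ hφ => (abs_sub_le _ _ _).trans (add_le_add (h φ hφ) (h' φ hφ))

lemma Cl.symm {μ ν : Measure X} {a : ℝ} (h : Cl μ ν a) : Cl ν μ a :=
  fun φ hφ => by rw [abs_sub_comm]; exact h φ hφ

lemma net {PP : Set (Measure X)} (hP : ∀ P ∈ PP, IsProbabilityMeasure P) (hTB : TB PP) {η : ℝ}
    (hη : 0 < η) : ∃ (N : ℕ) (P : Fin N → Measure X), (∀ i, P i ∈ PP) ∧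
      ∀ R ∈ PP, ∃ i, Cl R (P i) η := by
  obtain ⟨C, hC, hC1, hC2⟩ := hTB (η / 2) (by positivity)
  have hfin : {c ∈ C | ∃ P ∈ PP, rho P c < η / 2}.Finite := hC.subset (fun c hc => hc.1)
  obtain ⟨N, e, -, he⟩ := hfin.fin_param
  have h1 : ∀ i, e i ∈ C ∧ ∃ P ∈ PP, rho P (e i) < η / 2 := fun i =>
    (he ▸ Set.mem_range_self i : e i ∈ {c ∈ C | ∃ P ∈ PP, rho P c < η / 2})
  choose h2 P h3 h4 using h1
  refine ⟨N, P, h3, fun R hR => ?_⟩
  obtain ⟨c, hc, hc'⟩ := hC2 R hR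
  obtain ⟨i, rfl⟩ : c ∈ Set.range e := he ▸ ⟨hc, R, hR, hc'⟩
  have := hP R hR
  have := hP _ (h3 i)
  have := hC1 _ hc
  exact ⟨i, by simpa using (cl_of_rho hc').trans (cl_of_rho (h4 i)).symm⟩

lemma int_mix {ι : Type*} [Fintype ι] (c : ι → ℝ≥0) (P : ι → Measure X)
    [∀ j, IsProbabilityMeasure (P j)] {φ : X → ℝ} (hφ : Test φ) :
    ∫ x, φ x ∂(∑ j, c j • P j) = ∑ j, (c j : ℝ) * ∫ x, φ x ∂P j := by
  rw [integral_finsetSum_measure (fun j _ => hφ.integrable _)]
  simp [integral_smul_nnreal_measure, NNReal.smul_def]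

lemma prob_mix {ι : Type*} [Fintype ι] (c : ι → ℝ≥0) (P : ι → Measure X)
    [∀ j, IsProbabilityMeasure (P j)] (h : ∑ j, c j = 1) : IsProbabilityMeasure (∑ j, c j • P j) := by
  constructor
  simp only [Measure.coe_finsetSum, Finset.sum_apply, Measure.smul_apply, measure_univ,
    ENNReal.smul_def, smul_eq_mul, mul_one]
  rw [← ENNReal.ofNNReal_finsetSum, h]; rfl

lemma conv_prob {PP : Set (Measure X)} (hP : ∀ P ∈ PP, IsProbabilityMeasure P) {Q : Measure X}
    (hQ : Q ∈ conv PP) : IsProbabilityMeasure Q := by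
  obtain ⟨l, c, R, hR, hc, rfl⟩ := hQ
  have := fun j => hP _ (hR j)
  exact prob_mix c R hc

lemma regroup {PP : Set (Measure X)} (hP : ∀ P ∈ PP, IsProbabilityMeasure P) {N : ℕ}
    (P : Fin N → Measure X) {η : ℝ} (hnet : ∀ R ∈ PP, ∃ i, Cl R (P i) η) {Q : Measure X}
    (hQ : Q ∈ conv PP) : ∃ Λ ∈ stdSimplex ℝ (Fin N), ∀ φ, Test φ →
      (∀ i, Λ i * ∫ x, φ x ∂P i ≤ ∫ x, φ x ∂Q + Λ i * η) ∧
      |∫ x, φ x ∂Q - ∑ i, Λ i * ∫ x, φ x ∂P i| ≤ η := by
  obtain ⟨l, c, R, hR, hc, rfl⟩ := hQ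
  have := fun j => hP _ (hR j)
  choose a ha using fun j => hnet _ (hR j)
  have hc' : ∑ j, (c j : ℝ) = 1 := by exact_mod_cast hc
  refine ⟨fun i => ∑ j ∈ univ.filter (fun j => a j = i), (c j : ℝ),
    ⟨fun i => sum_nonneg (fun j _ => (c j).2), by rw [sum_fiberwise univ a, hc']⟩, fun φ hφ => ?_⟩
  rw [int_mix c R hφ]
  constructor
  · intro i
    rw [sum_mul, sum_mul]
    calc _ ≤ ∑ j ∈ univ.filter (fun j => a j = i), ((c j : ℝ) * (∫ x, φ x ∂(R j)) + c j * η) := by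
          refine sum_le_sum (fun j hj => ?_)
          rw [← mul_add, ← (mem_filter.1 hj).2]
          exact mul_le_mul_of_nonneg_left (by linarith [(abs_le.1 (ha j φ hφ)).1]) (c j).2
      _ ≤ _ := by
          rw [sum_add_distrib]
          gcongr
          all_goals first | exact filter_subset _ _ | exact fun j _ _ => mul_nonneg (c j).2 (hφ.int_nonneg _)
  · have h1 : ∑ i, (∑ j ∈ univ.filter (fun j => a j = i), (c j : ℝ)) * ∫ x, φ x ∂P i
        = ∑ j, (c j : ℝ) * ∫ x, φ x ∂P (a j) := by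
      rw [← sum_fiberwise univ a]
      refine sum_congr rfl (fun i _ => ?_)
      rw [sum_mul]
      exact sum_congr rfl (fun j hj => by rw [(mem_filter.1 hj).2])
    rw [h1, ← sum_sub_distrib]
    refine (abs_sum_le_sum_abs _ _).trans ?_
    calc _ ≤ ∑ j, (c j : ℝ) * η := sum_le_sum (fun j _ => by
          rw [← mul_sub, abs_mul, NNReal.abs_eq]
          exact mul_le_mul_of_nonneg_left (ha j φ hφ) (c j).2)
      _ = η := by rw [← sum_mul, hc', one_mul]

lemma fine {PP : Set (Measure X)} (hP : ∀ P ∈ PP, IsProbabilityMeasure P) (hTB : TB PP) {η : ℝ}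
    (hη : 0 < η) : ∃ (L : ℕ) (R : Fin L → Measure X), (∀ a, IsProbabilityMeasure (R a)) ∧
      ∀ Q ∈ clos (conv PP), ∃ a, Cl (R a) Q η := by
  obtain ⟨N, P, h1, h2⟩ := net hP hTB (show 0 < η / 3 by positivity)
  have := fun i => hP _ (h1 i)
  obtain ⟨t, ht, hfin, hcov⟩ := Metric.finite_approx_of_totallyBounded
    (isCompact_stdSimplex ℝ (Fin N)).totallyBounded (η / 3 / (N + 1)) (by positivity)
  obtain ⟨L, e, -, he⟩ := hfin.fin_param
  have he' : ∀ a, e a ∈ stdSimplex ℝ (Fin N) := fun a => ht (he ▸ Set.mem_range_self a)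
  refine ⟨L, fun a => ∑ i, (e a i).toNNReal • P i, fun a => prob_mix _ _ ?_, fun Q hQ => ?_⟩
  · apply NNReal.eq
    push_cast
    simp only [Real.coe_toNNReal _ ((he' a).1 _)]
    exact (he' a).2
  · obtain ⟨Q', hQ', hr⟩ := hQ.2 (η / 3) (by positivity)
    have := hQ.1
    have := conv_prob hP hQ'
    obtain ⟨Λ, hΛ, h3⟩ := regroup hP P h2 hQ'
    obtain ⟨y, hy, hy'⟩ := Set.mem_iUnion₂.1 (hcov hΛ)
    obtain ⟨a, rfl⟩ : y ∈ Set.range e := he ▸ hy
    refine ⟨a, fun φ hφ => ?_⟩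
    rw [int_mix _ _ hφ]
    simp only [Real.coe_toNNReal _ ((he' a).1 _)]
    have h4 := abs_le.1 (h3 φ hφ).2
    have h5 := abs_le.1 (cl_of_rho hr φ hφ)
    have h6 : |∑ i, e a i * ∫ x, φ x ∂P i - ∑ i, Λ i * ∫ x, φ x ∂P i| ≤ η / 3 := by
      rw [← sum_sub_distrib]
      refine (abs_sum_le_sum_abs _ _).trans ?_
      calc _ ≤ ∑ _i : Fin N, η / 3 / (N + 1) := sum_le_sum (fun i _ => by
            rw [← sub_mul, abs_mul, abs_of_nonneg (hφ.int_nonneg _)]
            have h7 := (dist_le_pi_dist Λ (e a) i).trans (Metric.mem_ball.1 hy').le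
            rw [Real.dist_eq, abs_sub_comm] at h7
            have h8 := hφ.int_le (P i)
            have h9 := hφ.int_nonneg (P i)
            nlinarith [abs_nonneg (e a i - Λ i)])
        _ ≤ _ := by
            rw [sum_const, card_univ, Fintype.card_fin, nsmul_eq_mul, ← mul_div_assoc,
              div_le_iff₀ (by positivity)]
            nlinarith
    have h7 := abs_le.1 h6
    rw [abs_le]; constructor <;> linarith [h4.1, h4.2, h5.1, h5.2, h7.1, h7.2]

lemma test_abs {f g : X → unitInterval} (hf : Measurable f) (hg : Measurable g) :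
    Test (fun x => |(f x : ℝ) - g x|) :=
  ⟨((measurable_subtype_coe.comp hf).sub (measurable_subtype_coe.comp hg)).abs, fun x =>
    ⟨abs_nonneg _, by
      rw [abs_le]; constructor <;> linarith [(f x).2.1, (f x).2.2, (g x).2.1, (g x).2.2]⟩⟩

lemma dP_tri (P : Measure X) [IsProbabilityMeasure P] {f g h : X → unitInterval}
    (hf : Measurable f) (hg : Measurable g) (hh : Measurable h) :
    dP P f g ≤ dP P f h + dP P g h := by
  unfold dP
  rw [← integral_add ((test_abs hf hh).integrable _) ((test_abs hg hh).integrable _)]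
  refine integral_mono ((test_abs hf hg).integrable _)
    (((test_abs hf hh).integrable _).add ((test_abs hg hh).integrable _)) (fun x => ?_)
  have := abs_sub_le (f x : ℝ) (h x) (g x)
  rwa [abs_sub_comm (h x : ℝ)] at this

lemma stage {PP : Set (Measure X)} (hP : ∀ P ∈ PP, IsProbabilityMeasure P) (hTB : TB PP)
    {F : Set (X → unitInterval)} (hF : ∀ f ∈ F, Measurable f) (hL : Learnable F PP) {ε : ℝ}
    (hε : 0 < ε) : ∃ n0, ∀ n ≥ n0, ∃ B : (Fin n → X × unitInterval) → F,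
      ∀ Q ∈ clos (conv PP), ∀ f ∈ F, Measure.pi (fun _ : Fin n => Q)
        {x | 5 * ε < dP Q f (B fun i => (x i, f (x i)))} ≤ ENNReal.ofReal ε := by
  classical
  obtain ⟨A, hA⟩ := hL
  obtain ⟨m, hm⟩ := ((hA ε hε).eventually (ge_mem_nhds
    (show (0 : ENNReal) < ENNReal.ofReal (1 / 8) by simp))).exists
  obtain ⟨η0, h00, h01, h02⟩ : ∃ η0 : ℝ, 0 < η0 ∧ η0 ≤ ε ∧ m * η0 ≤ 1 / 8 := by
    refine ⟨min ε (1 / (8 * (m + 1))), by positivity, min_le_left _ _, ?_⟩
    calc (m : ℝ) * _ ≤ m * (1 / (8 * (m + 1))) := by gcongr; exact min_le_right _ _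
      _ ≤ _ := by rw [mul_one_div, div_le_iff₀ (by positivity)]; linarith
  obtain ⟨N, P, hP1, hP2⟩ := net hP hTB h00
  have := fun i => hP _ (hP1 i)
  obtain ⟨K0, hK0⟩ : ∃ K0 : ℝ, K0 = N / ε + 1 := ⟨_, rfl⟩
  have hK1 : 0 < K0 := by rw [hK0]; positivity
  obtain ⟨η, hη⟩ : ∃ η : ℝ, η = 1 / (100 * K0 ^ m) := ⟨_, rfl⟩
  have hη0 : 0 < η := by rw [hη]; positivity
  obtain ⟨η1, h10, h11, h12, h13⟩ : ∃ η1 : ℝ, 0 < η1 ∧ η1 ≤ ε ∧ m * η1 ≤ η ∧
      m * (K0 * η1) ≤ 1 / 8 := by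
    have h1 : ∀ᶠ s in 𝓝[>] (0 : ℝ), s ≤ ε := (eventually_le_nhds hε).filter_mono nhdsWithin_le_nhds
    have h2 : ∀ᶠ s in 𝓝[>] (0 : ℝ), m * s ≤ η := by
      have : Tendsto (fun s : ℝ => m * s) (𝓝 0) (𝓝 (m * 0)) := Continuous.tendsto (by fun_prop) 0
      exact (this.eventually (eventually_le_nhds (by simpa using hη0))).filter_mono
        nhdsWithin_le_nhds
    have h3 : ∀ᶠ s in 𝓝[>] (0 : ℝ), m * (K0 * s) ≤ 1 / 8 := by
      have : Tendsto (fun s : ℝ => m * (K0 * s)) (𝓝 0) (𝓝 (m * (K0 * 0))) :=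
        Continuous.tendsto (by fun_prop) 0
      exact (this.eventually (eventually_le_nhds (by simp))).filter_mono nhdsWithin_le_nhds
    obtain ⟨s, h4, h5, h6, h7⟩ := (Filter.Eventually.and (self_mem_nhdsWithin (a := (0 : ℝ)) (s := Set.Ioi 0))
      (h1.and (h2.and h3))).exists
    exact ⟨s, h4, h5, h6, h7⟩
  obtain ⟨L, R, hR1, hR2⟩ := fine hP hTB h10
  obtain ⟨T, sel, I, V, hV, hcore⟩ := core (fun i => Measure.pi fun _ : Fin m => P i)
    (fun a => Measure.pi fun _ : Fin m => R a) (K0 ^ m) η ε (by positivity) hη0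
    (by rw [hη]; field_simp; norm_num) hε
  refine ⟨T * m, fun n hn => ?_⟩
  let g : Fin T → Fin m → Fin n := fun t k => Fin.castLE hn (finProdFinEquiv (t, k))
  have hg : Function.Injective (fun p : (_ : Fin T) × Fin m => g p.1 p.2) := by
    rintro ⟨t, k⟩ ⟨t', k'⟩ h
    have := finProdFinEquiv.injective (Fin.castLE_injective hn h)
    simp only [Prod.mk.injEq] at this
    obtain ⟨rfl, rfl⟩ := this
    rfl
  let C : (Fin n → X × unitInterval) → Fin L × F → Prop := fun z p =>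
    sel (fun t k => (z (g t k)).1) p.1 ∧ ∀ i, I i p.1 →
      2 * ∑ t, (if ε < dP (P i) p.2.1 (A m fun k => z (g t k)).1 then
        V i p.1 (fun k => (z (g t k)).1) else 0) < ∑ t, V i p.1 (fun k => (z (g t k)).1)
  refine ⟨fun z => if h : ∃ p, C z p then h.choose.2 else A 0 Fin.elim0, fun Q hQ f hf => ?_⟩
  have := hQ.1
  obtain ⟨a0, ha0⟩ := hR2 Q hQ
  have hb := hcore (Measure.pi fun _ : Fin m => Q) ⟨a0, by
      simpa using (ha0.dom.1.pi zero_le_one h10.le m).mono h12, by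
      simpa using (ha0.dom.2.pi zero_le_one h10.le m).mono h12⟩
    (fun i => {y | ε < dP (P i) f (A m fun k => (y k, f (y k)))})
    (fun i => by
      refine le_trans ?_ hm
      refine le_iSup₂_of_le (P i) (hP1 i) ?_
      refine le_iSup₂_of_le f hf ?_
      exact le_rfl)
  refine le_trans (measure_mono (fun x hx => ?_)) ((blocks Q g hg _).trans hb)
  rintro ⟨⟨a, ha⟩, hgood⟩
  have hCf : ∀ a, sel (fun t k => x (g t k)) a → C (fun i => (x i, f (x i))) (a, ⟨f, hf⟩) := by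
    intro a ha
    refine ⟨ha, fun i hi => ?_⟩
    have := (hgood a ha i).2 hi
    simpa only [Set.indicator_apply, Set.mem_ofPred_eq] using this
  have hex : ∃ p, C (fun i => (x i, f (x i))) p := ⟨_, hCf a ha⟩
  simp only [Set.mem_ofPred_eq, dif_pos hex] at hx
  obtain ⟨h1, h2⟩ := hex.choose_spec
  generalize hex.choose = p at hx h1 h2
  obtain ⟨a', g'⟩ := p
  obtain ⟨Q', hQ', hr⟩ := hQ.2 η1 h10
  have := conv_prob hP hQ'
  have hcl := cl_of_rho hr
  obtain ⟨Λ, hΛ, hΛ'⟩ := regroup hP P hP2 hQ'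
  have ht := test_abs (hF f hf) (hF _ g'.2)
  have hrel : ∀ i, 1 / K0 ≤ Λ i → dP (P i) f g' ≤ 2 * ε := by
    intro i hi
    have hΛ0 : 0 < Λ i := lt_of_lt_of_le (by positivity) hi
    have d1 : Dom (P i) Q' K0 η0 := by
      intro φ hφ
      have h3 := (hΛ' φ hφ).1 i
      have h4 := hφ.int_nonneg Q'
      rw [div_le_iff₀ hK1] at hi
      apply le_of_mul_le_mul_left _ hΛ0
      nlinarith
    have d2 := ((d1.trans hcl.dom.1 hK1.le).pi hK1.le (by positivity) m).mono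
      (show _ ≤ 1 / 4 by linarith)
    have hI := (hgood a' h1 i).1 d2
    have v1 := (hCf a' h1).2 i hI
    have v2 := h2 i hI
    by_contra hc
    have : ∑ t, V i a' (fun k => x (g t k)) ≤
        ∑ t, (if ε < dP (P i) f (A m fun k => (x (g t k), f (x (g t k)))).1 then
          V i a' (fun k => x (g t k)) else 0) +
        ∑ t, (if ε < dP (P i) g'.1 (A m fun k => (x (g t k), f (x (g t k)))).1 then
          V i a' (fun k => x (g t k)) else 0) := by
      rw [← sum_add_distrib]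
      refine sum_le_sum (fun t _ => ?_)
      have h5 := dP_tri (P i) (hF f hf) (hF _ g'.2) (hF _ (A m fun k => (x (g t k), f (x (g t k)))).2)
      have h6 := hV i a' (fun k => x (g t k))
      split_ifs <;> linarith
    simp only at v1 v2
    linarith
  have hsum : ∑ i, Λ i * dP (P i) f g' ≤ ∑ i, (Λ i * (2 * ε) + 1 / K0) := by
    refine sum_le_sum (fun i _ => ?_)
    have h3 := hΛ.1 i
    have h4 : 0 < 1 / K0 := by positivity
    by_cases hi : 1 / K0 ≤ Λ i
    · nlinarith [hrel i hi]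
    · have h5 : dP (P i) f g' ≤ 1 := ht.int_le (P i)
      nlinarith
  rw [sum_add_distrib, ← sum_mul, hΛ.2, sum_const, card_univ, Fintype.card_fin, nsmul_eq_mul] at hsum
  have h3 : (N : ℝ) * (1 / K0) ≤ ε := by
    rw [mul_one_div, div_le_iff₀ hK1, hK0, mul_add, mul_div_cancel₀ _ hε.ne']; linarith
  have h4 := (abs_le.1 (hΛ' _ ht).2).2
  have h5 := (abs_le.1 (hcl _ ht)).1
  simp only [dP] at hx hsum
  linarith

lemma Learnable.mono {F : Set (X → unitInterval)} {PP QQ : Set (Measure X)} (h : Learnable F QQ)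
    (hs : PP ⊆ QQ) : Learnable F PP := by
  obtain ⟨A, hA⟩ := h
  exact ⟨A, fun ε hε => tendsto_of_tendsto_of_tendsto_of_le_of_le tendsto_const_nhds (hA ε hε)
    (fun _ => bot_le) (fun m => biSup_mono hs)⟩

/-- PAC learnability passes to the closure, the convex hull and the closed convex hull of a totally
bounded family. -/
theorem result {X : Type*} [MeasurableSpace X] (PP : Set (Measure X))
    (hP : ∀ P ∈ PP, IsProbabilityMeasure P) (hTB : TB PP) (F : Set (X → unitInterval))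
    (hF : ∀ f ∈ F, Measurable f) (hL : Learnable F PP) :
    Learnable F (clos PP) ∧ Learnable F (conv PP) ∧ Learnable F (clos (conv PP)) := by
  have main : Learnable F (clos (conv PP)) := by
    choose n0 B hB using fun k : ℕ => stage hP hTB hF hL (show (0 : ℝ) < 1 / (k + 1) by positivity)
    obtain ⟨A, -⟩ := hL
    let kk : ℕ → ℕ := fun n => Nat.findGreatest (fun k => n0 k ≤ n) n
    refine ⟨fun n => if h : n0 (kk n) ≤ n then B (kk n) n h else A n, fun ε hε => ?_⟩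
    rw [ENNReal.tendsto_atTop_zero]
    intro δ hδ
    obtain ⟨k1, hk1⟩ := exists_nat_one_div_lt (show 0 < ε / 5 by positivity)
    obtain ⟨r, hr0, hr⟩ : ∃ r : ℝ, 0 < r ∧ ENNReal.ofReal r ≤ δ := by
      obtain ⟨r, -, h1, h2⟩ := ENNReal.lt_iff_exists_real_btwn.1 hδ
      exact ⟨r, ENNReal.ofReal_pos.1 h1, h2.le⟩
    obtain ⟨k2, hk2⟩ := exists_nat_one_div_lt hr0
    refine ⟨max (max k1 k2) (n0 (max k1 k2)), fun n hn => ?_⟩
    have h1 : max k1 k2 ≤ kk n :=
      Nat.le_findGreatest (le_of_max_le_left hn) (le_of_max_le_right hn)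
    have h2 : n0 (kk n) ≤ n :=
      Nat.findGreatest_spec (P := fun k => n0 k ≤ n) (le_of_max_le_left hn) (le_of_max_le_right hn)
    have h3 : (1 : ℝ) / (kk n + 1) ≤ 1 / (k1 + 1) := Nat.one_div_le_one_div (le_of_max_le_left h1)
    have h4 : (1 : ℝ) / (kk n + 1) ≤ 1 / (k2 + 1) := Nat.one_div_le_one_div (le_of_max_le_right h1)
    refine iSup₂_le (fun Q hQ => iSup₂_le (fun f hf => ?_))
    simp only [dif_pos h2]
    refine le_trans (measure_mono (fun x hx => ?_)) ((hB _ n h2 Q hQ f hf).trans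
      ((ENNReal.ofReal_le_ofReal (by linarith)).trans hr))
    simp only [Set.mem_ofPred_eq] at hx ⊢
    linarith
  have hsub : PP ⊆ conv PP := fun P h => ⟨1, fun _ => 1, fun _ => P, fun _ => h, by simp, by simp⟩
  refine ⟨main.mono (fun Q hQ => ⟨hQ.1, fun ε hε => ?_⟩),
    main.mono (fun Q hQ => ⟨conv_prob hP hQ, fun ε hε => ⟨Q, hQ, by simpa [rho] using hε⟩⟩), main⟩
  obtain ⟨P, h1, h2⟩ := hQ.2 ε hε
  exact ⟨P, hsub h1, h2⟩

end Pool.Agent.Results.MP_ab635e_lc.Hull
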